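import Pool.Agent.P.MP_271f8e_al.AfMain
import Pool.Agent.P.MP_271f8e_al.CtB

namespace Pool.Agent.Results.MP_271f8e_al.AffineSpace

open Pool.Agent.P.MP_271f8e_al

universe u

theorem result (k : Type u) [Field k] [IsAlgClosed k] (p : ℕ) [CharP k p] (hp : 0 < p) :
    ∃ ρ : borel k →* (MvPolynomial (Fin 4) k ≃ₐ[k] MvPolynomial (Fin 4) k),
      (∀ r : MvPolynomial (Fin 4) k, (fun b : borel k => ρ b r) ∈
        morphisms k (MvPolynomial (Fin 4) k) (fun b : borel k => b.1)) ∧
      IsCohenMacaulay (MvPolynomial (Fin 4) k) ∧ Algebra.FiniteType k (induced ρ) ∧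
      ¬ IsCohenMacaulay (induced ρ) := by
  obtain ⟨-, hq⟩ := Af.frAdd (k := k) p hp
  exact ⟨Af.rhoR hq, Af.rhoR_rational hq, (isCM_field k).mvPoly 4, Af.induced_fg hq,
    Af.not_isCM_of_fails (Af.induced_fails hq fun z =>
      IsAlgClosed.exists_pow_nat_eq z (by omega))⟩

/-- The negated form of the question, with a smooth domain. -/
theorem negated_form (k : Type u) [Field k] [IsAlgClosed k] (p : ℕ) [CharP k p] (hp : 0 < p) :
    ∃ (R : Type u) (_ : CommRing R) (_ : Algebra k R) (ρ : borel k →* (R ≃ₐ[k] R)),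
      (∀ r : R, (fun b : borel k => ρ b r) ∈ morphisms k R (fun b : borel k => b.1)) ∧
      IsDomain R ∧ Algebra.FiniteType k R ∧ Algebra.Smooth k R ∧
      IsCohenMacaulay R ∧ Algebra.FiniteType k (induced ρ) ∧ ¬ IsCohenMacaulay (induced ρ) := by
  obtain ⟨ρ, h1, h2, h3, h4⟩ := result k p hp
  exact ⟨_, inferInstance, inferInstance, ρ, h1, inferInstance, inferInstance,
    ⟨inferInstance, inferInstance⟩, h2, h3, h4⟩

/-- The action is explicit, and the failure is a failure of depth: the induced algebra is a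
finitely generated domain with a prime of depth at most two and dimension at least three. -/
theorem failure_at_a_prime (k : Type u) [Field k] [IsAlgClosed k] (p : ℕ) [CharP k p]
    (hp : 0 < p) :
    ∃ ρ : borel k →* (MvPolynomial (Fin 4) k ≃ₐ[k] MvPolynomial (Fin 4) k),
      (∀ b : borel k, ρ b (MvPolynomial.X 0) = b.1.1 0 0 • MvPolynomial.X 0 ∧
        ρ b (MvPolynomial.X 1) = b.1.1 0 1 ^ p ^ 2 • MvPolynomial.X 0 ^ p ^ 2 +
          b.1.1 1 1 ^ p ^ 2 • MvPolynomial.X 1 ∧
        ρ b (MvPolynomial.X 2) = b.1.1 1 1 • MvPolynomial.X 2 ∧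
        ρ b (MvPolynomial.X 3) = b.1.1 1 1 • MvPolynomial.X 3) ∧
      IsDomain (induced ρ) ∧ Algebra.FiniteType k (induced ρ) ∧ IsNoetherianRing (induced ρ) ∧
      ∃ (P : Ideal (induced ρ)) (_ : P.IsPrime), depth (Localization.AtPrime P) ≤ 2 ∧
        3 ≤ ringKrullDim (Localization.AtPrime P) := by
  obtain ⟨e, hq⟩ := Af.frAdd (k := k) p hp
  have := Af.induced_fg hq
  refine ⟨Af.rhoR hq, fun b => ⟨Af.actR_0 b, ?_, Af.actR_2 b, Af.actR_3 b⟩, induced_dom _, this,
    Algebra.FiniteType.isNoetherianRing k _,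
    Af.induced_fails hq fun z => IsAlgClosed.exists_pow_nat_eq z (by omega)⟩
  have h := Af.actR_1 (n := p ^ 2 - 3) b
  rwa [e] at h

/-- Control: if the action of `B` is the restriction of a rational action of `G`, the induced
algebra is `R` itself, so the property of the question holds. -/
theorem restricted_action (k : Type u) [Field k] [IsAlgClosed k] (R : Type u) [CommRing R]
    [Algebra k R] (σ : Matrix.SpecialLinearGroup (Fin 2) k →* (R ≃ₐ[k] R))
    (hσ : ∀ r : R, (fun g => σ g r) ∈ morphisms k R (fun g => g))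
    (ρ : borel k →* (R ≃ₐ[k] R)) (h : ∀ b : borel k, ρ b = σ b.1) :
    (∃ e : induced ρ ≃ₐ[k] R, ∀ f, e f = f.1 1) ∧
      (IsCohenMacaulay R → IsCohenMacaulay (induced ρ)) := by
  obtain ⟨e, he⟩ := restricted σ hσ ρ h
  exact ⟨⟨e, he⟩, fun hR => hR.of_equiv e.symm.toRingEquiv⟩

/-- Control: the morphisms on `G` form the coordinate ring of `SL_2` over `R`. -/
theorem coordinate_ring_G (k : Type u) [Field k] [IsAlgClosed k] (R A : Type u) [CommRing R]
    [Algebra k R] [CommRing A] [Algebra R A] (γ : Matrix.SpecialLinearGroup (Fin 2) A) :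
    ∃! φ : morphisms k R (fun g : Matrix.SpecialLinearGroup (Fin 2) k => g) →ₐ[R] A,
      ∀ f i j, (∀ g, f.1 g = algebraMap k R (g.1 i j)) → φ f = γ.1 i j :=
  morph_lift _ _ fun _ h => dense h _ γ.2

/-- Control: the morphisms on `B` form the coordinate ring of the upper triangular group. -/
theorem coordinate_ring_B (k : Type u) [Field k] [IsAlgClosed k] (R A : Type u) [CommRing R]
    [Algebra k R] [CommRing A] [Algebra R A] (γ : Matrix.SpecialLinearGroup (Fin 2) A)
    (h0 : γ.1 1 0 = 0) :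
    ∃! φ : morphisms k R (fun b : borel k => b.1) →ₐ[R] A,
      ∀ f i j, (∀ b, f.1 b = algebraMap k R (b.1.1 i j)) → φ f = γ.1 i j :=
  morph_lift _ _ fun _ h => denseB h _ γ.2 h0

/-- Control: depth is at most dimension in a Noetherian local ring. -/
theorem depth_le_dimension (A : Type u) [CommRing A] [IsLocalRing A] [IsNoetherianRing A] :
    (depth A : WithBot ℕ∞) ≤ ringKrullDim A := depth_le_dim A

end Pool.Agent.Results.MP_271f8e_al.AffineSpace
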