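import Pool.Agent.P.MP_271f8e_al.PlSide

namespace Pool.Agent.Results.MP_271f8e_al.LinearAction

open Pool.Agent.P.MP_271f8e_al

universe u

theorem result (p : ℕ) (hp : p.Prime) (k : Type u) [Field k] [IsAlgClosed k] [CharP k p] :
    ∃ ρ : borel3 k →* (MvPolynomial (Fin 2) k ≃ₐ[k] MvPolynomial (Fin 2) k),
      (∀ r : MvPolynomial (Fin 2) k, (fun b : borel3 k => ρ b r) ∈
        morphisms3 k (MvPolynomial (Fin 2) k) (fun b : borel3 k => b.1)) ∧
      (∀ (b : borel3 k) (i : Fin 2), (ρ b (MvPolynomial.X i)).IsHomogeneous 1) ∧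
      IsCohenMacaulay (MvPolynomial (Fin 2) k) ∧
      Algebra.FiniteType k (induced3 ρ) ∧ ¬ IsCohenMacaulay (induced3 ρ) := by
  have := Fact.mk hp
  have h2 := hp.two_le
  have hφ : ∀ a : k, ((frobenius k p).comp (frobenius k p)) a = a ^ (p * p) := fun a => by
    simp [frobenius_def, ← pow_mul]
  exact ⟨Pl.rho3 _, Pl.rho3_rational _ hφ, Pl.rho3_linear _, (isCM_field k).mvPoly 2,
    Pl.induced_ft _ hφ, Pl.induced_not_CM _ hφ (by nlinarith)⟩

/-- The action and the induced algebra are explicit: with `q = p ^ 2` the induced algebra is the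
quotient of the algebra generated by the nine products `x_i c_j` by the multiples of
`c_0 x_0 ^ q + c_1 x_1 ^ q + c_2 x_2 ^ q`; it is a Noetherian domain with a prime of depth at most
two and dimension at least three. -/
theorem explicit (p : ℕ) (hp : p.Prime) (k : Type u) [Field k] [IsAlgClosed k] [CharP k p] :
    ∃ ρ : borel3 k →* (MvPolynomial (Fin 2) k ≃ₐ[k] MvPolynomial (Fin 2) k),
      (∀ b : borel3 k,
        ρ b (MvPolynomial.X 0) =
          (b.1.1 1 1 * b.1.1 2 2 * b.1.1 1 1 ^ p ^ 2) • MvPolynomial.X 0 ∧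
        ρ b (MvPolynomial.X 1) =
          (b.1.1 1 1 * b.1.1 2 2 * b.1.1 1 2 ^ p ^ 2) • MvPolynomial.X 0 +
          (b.1.1 1 1 * b.1.1 2 2 * b.1.1 2 2 ^ p ^ 2) • MvPolynomial.X 1) ∧
      (∃ θ : Algebra.adjoin k (Set.range fun ij : Fin 3 × Fin 3 =>
          (MvPolynomial.X (Sum.inl ij.1) * MvPolynomial.X (Sum.inr ij.2) :
            MvPolynomial (Fin 3 ⊕ Fin 3) k)) →ₐ[k] induced3 ρ,
        Function.Surjective θ ∧ ∀ P, θ P = 0 ↔
          (∑ i : Fin 3, MvPolynomial.X (Sum.inr i) * MvPolynomial.X (Sum.inl i) ^ p ^ 2) ∣ P.1) ∧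
      IsDomain (induced3 ρ) ∧ IsNoetherianRing (induced3 ρ) ∧
      ∃ (P : Ideal (induced3 ρ)) (_ : P.IsPrime), depth (Localization.AtPrime P) ≤ 2 ∧
        3 ≤ ringKrullDim (Localization.AtPrime P) := by
  have := Fact.mk hp
  have h2 := hp.two_le
  have hφ : ∀ a : k, ((frobenius k p).comp (frobenius k p)) a = a ^ p ^ 2 := fun a => by
    simp [frobenius_def, ← pow_mul, sq]
  have := Pl.induced_ft _ hφ
  refine ⟨Pl.rho3 ((frobenius k p).comp (frobenius k p)), fun b => ⟨?_, ?_⟩,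
    ⟨Pl.TH _ hφ, Pl.TH_surj _ hφ, fun _ => Pl.TH_zero _ hφ⟩, Pl.induced_domain _ hφ,
    Algebra.FiniteType.isNoetherianRing k _, Pl.induced_bad_prime _ hφ (by nlinarith)⟩
  · have h0 : b.1.1 2 1 = 0 := b.2.2.2
    simp only [Pl.rho3_apply, Pl.rh, MvPolynomial.aeval_X, hφ, MvPolynomial.smul_eq_C_mul]
    simp [h0, hp.ne_zero]
  · simp only [Pl.rho3_apply, Pl.rh, MvPolynomial.aeval_X, hφ, MvPolynomial.smul_eq_C_mul]
    rfl

end Pool.Agent.Results.MP_271f8e_al.LinearAction
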